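import Pool.Agent.Helper23.PI.Final

/-!
# `≃ᵖ` at `ℵ₁` is consistently not transitive

There is a countable transitive model of ZFC in which the relation `≃ᵖ` (there is a `σ`-closed
set of countable partial isomorphisms with the `ℵ₁`-back-and-forth property) is not transitive.
The vocabulary has one binary and one ternary relation symbol.
-/

namespace Pool.Agent.Results.MP_6d301e_lc.NotTransitive

open Pool.Agent.Helper23.PI Pool.Agent.Helper96.Fc

/-- There are a countable transitive model `N` of ZFC and structures `A`, `B`, `C` of `N` with one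
binary and one ternary relation such that `A ≃ᵖ B` and `B ≃ᵖ C` but not `A ≃ᵖ C` in `N`. -/
theorem result : ∃ N : Set ZFSet.{0}, N.Countable ∧ IsZFC N ∧ ∃ A B C : Str, IsStr N A ∧
    IsStr N B ∧ IsStr N C ∧ Sim N A B ∧ Sim N B C ∧ ¬ Sim N A C :=
  Pool.Agent.Helper23.PI.main

end Pool.Agent.Results.MP_6d301e_lc.NotTransitive
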